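import Pool.Agent.Helper86.XE.LowBad
import Pool.Agent.Helper84.LR.Defs

/-!
# EX-E6: the exotic relation `ρ ^ 3 = π ^ 2 * (q / π)`

`ww q` of the stub is written out (`exotic_aux`), so that this file does not depend on the file of the definition.
-/

set_option autoImplicit false

open Polynomial

namespace Pool.Agent.Helper78.EX

open Pool.Agent.Helper84.AA
open Pool.Agent.Helper19.Sign (weil weil_monic weil_map eval_weil)

theorem eval_frob {q : ℕ} {h : ℤ[X]} (hm : h.Monic) {z : ℂ} (hz : z ≠ 0) :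
    ((frob q h).map (Int.castRingHom ℂ)).eval z =
      z ^ h.natDegree * (h.map (Int.castRingHom ℂ)).eval (z + (q : ℂ) / z) := by
  rw [frob_eq, weil_map _ _ _ (hm.natDegree_map _), eval_weil _ _ _ hz, hm.natDegree_map]
  simp

theorem mem_roots_frob {q : ℕ} {h : ℤ[X]} (hm : h.Monic) {z : ℂ} (hz : z ≠ 0)
    (h0 : (h.map (Int.castRingHom ℂ)).eval (z + (q : ℂ) / z) = 0) :
    z ∈ ((frob q h).map (Int.castRingHom ℂ)).roots.toFinset := by
  have hfm : (frob q h).Monic := (weil_monic (q : ℤ) h hm).1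
  rw [Multiset.mem_toFinset, mem_roots (hfm.map _).ne_zero, IsRoot, eval_frob hm hz, h0, mul_zero]

theorem ww_monic (q : ℕ) :
    ((X - 1) * (X ^ 3 - C (3 * (q : ℤ)) * X - C (q : ℤ)) : ℤ[X]).Monic := by
  have h1 : (X - 1 : ℤ[X]).Monic := by
    have := monic_X_sub_C (1 : ℤ)
    rwa [map_one] at this
  have h2 : (X ^ 3 - C (3 * (q : ℤ)) * X - C (q : ℤ) : ℤ[X]).Monic := by
    have e : (X ^ 3 - C (3 * (q : ℤ)) * X - C (q : ℤ) : ℤ[X]) =
        X ^ 3 + (C (-(3 * (q : ℤ))) * X + C (-(q : ℤ))) := by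
      simp only [map_neg]
      ring
    rw [e]
    refine monic_X_pow_add (n := 3) ?_
    exact lt_of_le_of_lt degree_linear_le (by norm_num)
  exact h1.mul h2

theorem eval_ww (q : ℕ) (x : ℂ) :
    (((X - 1) * (X ^ 3 - C (3 * (q : ℤ)) * X - C (q : ℤ)) : ℤ[X]).map (Int.castRingHom ℂ)).eval x =
      (x - 1) * (x ^ 3 - 3 * q * x - q) := by
  simp

/-- the numbers `π`, `ρ` -/
theorem exists_pr {q : ℕ} (hq : 2 ≤ q) : ∃ w r : ℂ, w ≠ 0 ∧ r ≠ 0 ∧ w ^ 2 - w + q = 0 ∧
    r ^ 3 = q * w ∧ w ≠ q / w ∧ r ≠ w ∧ r ≠ q / w := by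
  have hq0 : (q : ℂ) ≠ 0 := by
    have : q ≠ 0 := by omega
    exact_mod_cast this
  obtain ⟨s, hs⟩ := IsAlgClosed.exists_pow_nat_eq (1 - 4 * (q : ℂ)) (n := 2) (by norm_num)
  set w : ℂ := (1 + s) / 2 with hwd
  have hw : w ^ 2 - w + q = 0 := by
    rw [hwd]
    linear_combination (1 / 4) * hs
  have hw0 : w ≠ 0 := by
    intro h
    rw [h] at hw
    apply hq0
    linear_combination hw
  obtain ⟨r, hr⟩ := IsAlgClosed.exists_pow_nat_eq ((q : ℂ) * w) (n := 3) (by norm_num)
  have hr0 : r ≠ 0 := by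
    rintro rfl
    rw [zero_pow (by norm_num)] at hr
    exact mul_ne_zero hq0 hw0 hr.symm
  have key : w ^ 2 ≠ q := by
    intro h
    have h1 : w = 2 * q := by linear_combination h - hw
    rw [h1] at h
    have h2 : (4 : ℂ) * q = 1 := by
      have h3 : (q : ℂ) * (4 * q - 1) = 0 := by linear_combination h
      rcases mul_eq_zero.1 h3 with h4 | h4
      · exact absurd h4 hq0
      · linear_combination h4
    have h3 : 4 * q = 1 := by exact_mod_cast h2
    omega
  refine ⟨w, r, hw0, hr0, hw, hr, ?_, ?_, ?_⟩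
  · intro h
    rw [eq_div_iff hw0] at h
    exact key (by linear_combination h)
  · intro h
    rw [h] at hr
    apply key
    have h1 : w * (w ^ 2 - q) = 0 := by linear_combination hr
    rcases mul_eq_zero.1 h1 with h2 | h2
    · exact absurd h2 hw0
    · linear_combination h2
  · intro h
    rw [h, div_pow, div_eq_iff (pow_ne_zero _ hw0)] at hr
    have h1 : (q : ℂ) * ((w ^ 2 - q) * (w ^ 2 + q)) = 0 := by linear_combination -hr
    rcases mul_eq_zero.1 h1 with h2 | h2
    · exact hq0 h2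
    rcases mul_eq_zero.1 h2 with h3 | h3
    · exact key (by linear_combination h3)
    · exact hw0 (by linear_combination h3 - hw)

/-- the roots `π`, `q / π`, `ρ` of `frob q (ww q * u)` -/
theorem mem_pr {q : ℕ} (hq : 2 ≤ q) {u : ℤ[X]} (hu : u.Monic) {w r : ℂ} (hw0 : w ≠ 0) (hr0 : r ≠ 0)
    (hw : w ^ 2 - w + q = 0) (hr : r ^ 3 = q * w) :
    w ∈ ((frob q ((X - 1) * (X ^ 3 - C (3 * (q : ℤ)) * X - C (q : ℤ)) * u)).map
      (Int.castRingHom ℂ)).roots.toFinset ∧
    (q : ℂ) / w ∈ ((frob q ((X - 1) * (X ^ 3 - C (3 * (q : ℤ)) * X - C (q : ℤ)) * u)).map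
      (Int.castRingHom ℂ)).roots.toFinset ∧
    r ∈ ((frob q ((X - 1) * (X ^ 3 - C (3 * (q : ℤ)) * X - C (q : ℤ)) * u)).map
      (Int.castRingHom ℂ)).roots.toFinset := by
  have hq0 : (q : ℂ) ≠ 0 := by
    have : q ≠ 0 := by omega
    exact_mod_cast this
  have hm := (ww_monic q).mul hu
  have hev : ∀ x : ℂ, (x - 1) * (x ^ 3 - 3 * q * x - q) = 0 →
      (((X - 1) * (X ^ 3 - C (3 * (q : ℤ)) * X - C (q : ℤ)) * u : ℤ[X]).map
        (Int.castRingHom ℂ)).eval x = 0 := by
    intro x hx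
    rw [Polynomial.map_mul, eval_mul, eval_ww, hx, zero_mul]
  have h1 : w + q / w = 1 := by
    field_simp
    linear_combination hw
  refine ⟨mem_roots_frob hm hw0 (hev _ ?_), mem_roots_frob hm (div_ne_zero hq0 hw0) (hev _ ?_),
    mem_roots_frob hm hr0 (hev _ ?_)⟩
  · rw [h1, sub_self, zero_mul]
  · have h2 : (q : ℂ) / w + q / (q / w) = 1 := by
      rw [← h1]
      field_simp
      ring
    rw [h2, sub_self, zero_mul]
  · have h2 : (r + q / r) ^ 3 - 3 * q * (r + q / r) - q = r ^ 3 + q ^ 3 / r ^ 3 - q := by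
      field_simp
      ring
    have h3 : (r + q / r) ^ 3 - 3 * q * (r + q / r) - q = 0 := by
      rw [h2, hr]
      have h4 : (q : ℂ) * w + q ^ 3 / (q * w) - q = q * (w + q / w - 1) := by
        field_simp
      rw [h4, h1, sub_self, mul_zero]
    rw [h3, mul_zero]

theorem exotic_aux {q : ℕ} (hq : 2 ≤ q) {u : ℤ[X]} (hu : u.Monic) :
    ∃ n : ℂ → ℤ, (∏ z ∈ ((frob q ((X - 1) * (X ^ 3 - C (3 * (q : ℤ)) * X - C (q : ℤ)) * u)).map
      (Int.castRingHom ℂ)).roots.toFinset, z ^ n z) = 1 ∧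
      ∃ z ∈ ((frob q ((X - 1) * (X ^ 3 - C (3 * (q : ℤ)) * X - C (q : ℤ)) * u)).map
        (Int.castRingHom ℂ)).roots.toFinset, n z ≠ n (q / z) := by
  classical
  have hq0 : (q : ℂ) ≠ 0 := by
    have : q ≠ 0 := by omega
    exact_mod_cast this
  obtain ⟨w, r, hw0, hr0, hw, hr, d1, d2, d3⟩ := exists_pr hq
  obtain ⟨m1, m2, m3⟩ := mem_pr hq hu hw0 hr0 hw hr
  set S := ((frob q ((X - 1) * (X ^ 3 - C (3 * (q : ℤ)) * X - C (q : ℤ)) * u)).map
    (Int.castRingHom ℂ)).roots.toFinset with hS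
  let n : ℂ → ℤ := fun z => if z = r then 3 else if z = w then -2 else if z = q / w then -1 else 0
  have n1 : n r = 3 := if_pos rfl
  have n2 : n w = -2 := by
    change (if w = r then (3 : ℤ) else if w = w then -2 else if w = q / w then -1 else 0) = -2
    rw [if_neg (Ne.symm d2), if_pos rfl]
  have n3 : n (q / w) = -1 := by
    change (if (q : ℂ) / w = r then (3 : ℤ) else if (q : ℂ) / w = w then -2 else
      if (q : ℂ) / w = q / w then -1 else 0) = -1
    rw [if_neg (Ne.symm d3), if_neg (Ne.symm d1), if_pos rfl]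
  refine ⟨n, ?_, w, m1, by rw [n2, n3]; norm_num⟩
  have hsub : ({r, w, (q : ℂ) / w} : Finset ℂ) ⊆ S := by
    intro z hz
    rw [Finset.mem_insert, Finset.mem_insert, Finset.mem_singleton] at hz
    rcases hz with rfl | rfl | rfl
    · exact m3
    · exact m1
    · exact m2
  rw [← Finset.prod_subset hsub (fun z _ hz => by
    rw [Finset.mem_insert, Finset.mem_insert, Finset.mem_singleton, not_or, not_or] at hz
    have h1 : n z = 0 := by
      change (if z = r then (3 : ℤ) else if z = w then -2 else if z = q / w then -1 else 0) = 0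
      rw [if_neg hz.1, if_neg hz.2.1, if_neg hz.2.2]
    rw [h1, zpow_zero])]
  rw [Finset.prod_insert (by
      rw [Finset.mem_insert, Finset.mem_singleton, not_or]
      exact ⟨d2, d3⟩),
    Finset.prod_insert (by
      rw [Finset.mem_singleton]
      exact d1), Finset.prod_singleton, n1, n2, n3]
  have e1 : r ^ (3 : ℤ) = q * w := by
    rw [← hr]
    norm_cast
  have e2 : w ^ (-2 : ℤ) = (w ^ 2)⁻¹ := by
    rw [zpow_neg]
    norm_cast
  rw [e1, e2, zpow_neg_one]
  field_simp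

end Pool.Agent.Helper78.EX
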